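import Pool.Agent.H18.TD.Targets

/-! (GRS) two coprime integer polynomials are not both small at a point (MP_58ae59_nt). -/

set_option autoImplicit false

open Polynomial

namespace Pool.Agent.H36.TD1

open Pool.Agent.H18.TD

/-- the determinant is at most the product of the column sums -/
theorem det_le_prod {N : ℕ} (A : Matrix (Fin N) (Fin N) ℂ) :
    ‖A.det‖ ≤ ∏ j, ∑ i, ‖A i j‖ := by
  rw [Matrix.det_apply]
  calc ‖∑ σ : Equiv.Perm (Fin N), Equiv.Perm.sign σ • ∏ i, A (σ i) i‖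
      ≤ ∑ σ : Equiv.Perm (Fin N), ‖Equiv.Perm.sign σ • ∏ i, A (σ i) i‖ := norm_sum_le _ _
    _ = ∑ σ : Equiv.Perm (Fin N), ∏ i, ‖A (σ i) i‖ := by
        refine Finset.sum_congr rfl fun σ _ => ?_
        rcases Int.units_eq_one_or (Equiv.Perm.sign σ) with h | h
        · rw [h, one_smul, norm_prod]
        · rw [h, Units.neg_smul, one_smul, norm_neg, norm_prod]
    _ = ∑ f ∈ (Finset.univ : Finset (Equiv.Perm (Fin N))).map
          (⟨fun σ : Equiv.Perm (Fin N) => (σ : Fin N → Fin N), DFunLike.coe_injective⟩ :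
            Equiv.Perm (Fin N) ↪ (Fin N → Fin N)), ∏ i, ‖A (f i) i‖ := by
        rw [Finset.sum_map]; rfl
    _ ≤ ∑ f : Fin N → Fin N, ∏ i, ‖A (f i) i‖ :=
        Finset.sum_le_sum_of_subset_of_nonneg (Finset.subset_univ _)
          fun f _ _ => Finset.prod_nonneg fun i _ => norm_nonneg _
    _ = ∏ j, ∑ i, ‖A i j‖ := by
        rw [Finset.prod_univ_sum]
        simp

/-- sums over a column of the Sylvester matrix -/
theorem colsum {E : Type*} [AddCommMonoid E] (F : ℕ → ℕ → E) (j n N : ℕ) (h : j + n < N) :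
    ∑ i : Fin N, (if (i : ℕ) ∈ Set.Icc j (j + n) then F i (i - j) else 0) =
      ∑ k ∈ Finset.range (n + 1), F (j + k) k := by
  classical
  rw [Fin.sum_univ_eq_sum_range (fun i => if i ∈ Set.Icc j (j + n) then F i (i - j) else 0) N,
    ← Finset.sum_filter]
  symm
  refine Finset.sum_nbij' (fun k => j + k) (fun i => i - j) ?_ ?_ ?_ ?_ ?_
  · intro k hk
    rw [Finset.mem_range] at hk
    rw [Finset.mem_filter, Finset.mem_range, Set.mem_Icc]
    omega
  · intro i hi
    rw [Finset.mem_filter, Finset.mem_range, Set.mem_Icc] at hi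
    rw [Finset.mem_range]
    omega
  · intro k _
    omega
  · intro i hi
    rw [Finset.mem_filter, Finset.mem_range, Set.mem_Icc] at hi
    omega
  · intro k _
    rw [Nat.add_sub_cancel_left]

/-- the values of a polynomial as a sum over a column -/
theorem colval (Q : ℂ[X]) (θ : ℂ) (j n N : ℕ) (hn : Q.natDegree ≤ n) (h : j + n < N) :
    ∑ i : Fin N, θ ^ (i : ℕ) * (if (i : ℕ) ∈ Set.Icc j (j + n) then Q.coeff (i - j) else 0) =
      θ ^ j * Q.eval θ := by
  have h1 : ∀ i : Fin N, θ ^ (i : ℕ) *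
      (if (i : ℕ) ∈ Set.Icc j (j + n) then Q.coeff (i - j) else 0) =
      if (i : ℕ) ∈ Set.Icc j (j + n) then (fun a b => θ ^ a * Q.coeff b) (i : ℕ) (i - j)
        else 0 := by
    intro i
    rw [mul_ite, mul_zero]
  rw [Finset.sum_congr rfl fun i _ => h1 i, colsum (fun a b => θ ^ a * Q.coeff b) j n N h,
    Polynomial.eval_eq_sum_range' (Nat.lt_succ_of_le hn), Finset.mul_sum]
  refine Finset.sum_congr rfl fun k _ => ?_
  rw [pow_add]
  ring

/-- the Sylvester determinant is small if both values are small -/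
theorem syl_bound (P Q : ℂ[X]) (m n : ℕ) (θ : ℂ) (T ε LP LQ : ℝ) (hm : P.natDegree ≤ m)
    (hn : Q.natDegree ≤ n) (hN : 0 < m + n) (hT : 1 ≤ T) (hθ : ‖θ‖ ≤ T)
    (hP : ‖P.eval θ‖ ≤ ε) (hQ : ‖Q.eval θ‖ ≤ ε)
    (hLP : ∑ k ∈ Finset.range (m + 1), ‖P.coeff k‖ ≤ LP)
    (hLQ : ∑ k ∈ Finset.range (n + 1), ‖Q.coeff k‖ ≤ LQ) :
    ‖(sylvester P Q m n).det‖ ≤ T ^ (m + n) * ε * ((1 + LQ) ^ m * (1 + LP) ^ n) := by
  have hε : 0 ≤ ε := (norm_nonneg _).trans hP
  have hT0 : 0 < T := by linarith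
  set S := sylvester P Q m n with hS
  set j0 : Fin (m + n) := ⟨0, hN⟩ with hj0
  set r : Fin (m + n) → ℂ := ∑ i : Fin (m + n), θ ^ (i : ℕ) • S i with hr
  have hdet : S.det = (S.updateRow j0 r).det := by
    rw [hr, Matrix.det_updateRow_sum S j0 (fun i => θ ^ (i : ℕ))]
    simp [hj0]
  set η : ℝ := T ^ (m + n) * ε with hη
  have hη0 : 0 ≤ η := by positivity
  have hrj : ∀ j, r j = ∑ i : Fin (m + n), θ ^ (i : ℕ) * S i j := by
    intro j
    rw [hr, Finset.sum_apply]
    rfl
  have hSL : ∀ (i : Fin (m + n)) (j : Fin m), S i (Fin.castAdd n j) =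
      if (i : ℕ) ∈ Set.Icc (j : ℕ) (j + n) then Q.coeff (i - j) else 0 := by
    intro i j
    rw [hS, sylvester, Matrix.of_apply, Fin.addCases_left]
  have hSR : ∀ (i : Fin (m + n)) (j : Fin n), S i (Fin.natAdd m j) =
      if (i : ℕ) ∈ Set.Icc (j : ℕ) (j + m) then P.coeff (i - j) else 0 := by
    intro i j
    rw [hS, sylvester, Matrix.of_apply, Fin.addCases_right]
  have hpw : ∀ (k : ℕ) (z : ℂ), k ≤ m + n → ‖z‖ ≤ ε → ‖θ ^ k * z‖ ≤ η := by
    intro k z hk hz
    rw [norm_mul, norm_pow, hη]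
    apply mul_le_mul _ hz (norm_nonneg _) (by positivity)
    calc ‖θ‖ ^ k ≤ T ^ k := pow_le_pow_left₀ (norm_nonneg _) hθ k
      _ ≤ T ^ (m + n) := pow_le_pow_right₀ hT hk
  have hrb : ∀ j, ‖r j‖ ≤ η := by
    intro j
    refine Fin.addCases (fun j₁ => ?_) (fun j₁ => ?_) j
    · rw [hrj, Finset.sum_congr rfl fun i _ => by rw [hSL i j₁],
        colval Q θ j₁ n (m + n) hn (by omega)]
      exact hpw _ _ (by omega) hQ
    · rw [hrj, Finset.sum_congr rfl fun i _ => by rw [hSR i j₁],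
        colval P θ j₁ m (m + n) hm (by omega)]
      exact hpw _ _ (by omega) hP
  set w : Fin (m + n) → ℂ := fun j => r j / η with hw
  have hrw : r = (η : ℂ) • w := by
    ext j
    rw [Pi.smul_apply, smul_eq_mul, hw]
    simp only
    by_cases h0 : η = 0
    · have := hrb j
      rw [h0] at this
      rw [norm_le_zero_iff.1 this]
      simp
    · have : (η : ℂ) ≠ 0 := by exact_mod_cast h0
      field_simp
  have hwb : ∀ j, ‖w j‖ ≤ 1 := by
    intro j
    rw [hw]
    simp only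
    rw [norm_div, Complex.norm_real, Real.norm_eq_abs, abs_of_nonneg hη0]
    exact div_le_one_of_le₀ (hrb j) hη0
  have hcol : ∀ j, ∑ i, ‖(S.updateRow j0 w) i j‖ ≤ 1 + ∑ i, ‖S i j‖ := by
    intro j
    calc ∑ i, ‖(S.updateRow j0 w) i j‖
        ≤ ∑ i, ((if i = j0 then 1 else 0) + ‖S i j‖) := by
          refine Finset.sum_le_sum fun i _ => ?_
          rw [Matrix.updateRow_apply]
          split_ifs with h
          · linarith [hwb j, norm_nonneg (S i j)]
          · linarith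
      _ = 1 + ∑ i, ‖S i j‖ := by
          rw [Finset.sum_add_distrib]
          simp
  have hcL : ∀ j : Fin m, ∑ i, ‖S i (Fin.castAdd n j)‖ ≤ LQ := by
    intro j
    have h1 : ∀ i : Fin (m + n), ‖S i (Fin.castAdd n j)‖ =
        if (i : ℕ) ∈ Set.Icc (j : ℕ) (j + n) then (fun _ b => ‖Q.coeff b‖) (i : ℕ) (i - j)
          else 0 := by
      intro i
      rw [hSL]
      split_ifs <;> simp
    rw [Finset.sum_congr rfl fun i _ => h1 i,
      colsum (fun _ b => ‖Q.coeff b‖) j n (m + n) (by omega)]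
    exact hLQ
  have hcR : ∀ j : Fin n, ∑ i, ‖S i (Fin.natAdd m j)‖ ≤ LP := by
    intro j
    have h1 : ∀ i : Fin (m + n), ‖S i (Fin.natAdd m j)‖ =
        if (i : ℕ) ∈ Set.Icc (j : ℕ) (j + m) then (fun _ b => ‖P.coeff b‖) (i : ℕ) (i - j)
          else 0 := by
      intro i
      rw [hSR]
      split_ifs <;> simp
    rw [Finset.sum_congr rfl fun i _ => h1 i,
      colsum (fun _ b => ‖P.coeff b‖) j m (m + n) (by omega)]
    exact hLP
  have hnn : ∀ j, 0 ≤ ∑ i, ‖(S.updateRow j0 w) i j‖ := fun j =>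
    Finset.sum_nonneg fun i _ => norm_nonneg _
  rw [hdet, hrw, Matrix.det_updateRow_smul, norm_mul, Complex.norm_real, Real.norm_eq_abs,
    abs_of_nonneg hη0]
  apply mul_le_mul_of_nonneg_left _ hη0
  refine (det_le_prod _).trans ?_
  rw [Fin.prod_univ_add]
  apply mul_le_mul
  · calc ∏ j : Fin m, ∑ i, ‖(S.updateRow j0 w) i (Fin.castAdd n j)‖
        ≤ ∏ _j : Fin m, (1 + LQ) := by
          refine Finset.prod_le_prod (fun j _ => hnn _) fun j _ => ?_
          linarith [hcol (Fin.castAdd n j), hcL j]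
      _ = (1 + LQ) ^ m := by simp
  · calc ∏ j : Fin n, ∑ i, ‖(S.updateRow j0 w) i (Fin.natAdd m j)‖
        ≤ ∏ _j : Fin n, (1 + LP) := by
          refine Finset.prod_le_prod (fun j _ => hnn _) fun j _ => ?_
          linarith [hcol (Fin.natAdd m j), hcR j]
      _ = (1 + LP) ^ n := by simp
  · exact Finset.prod_nonneg fun j _ => hnn _
  · have : 0 ≤ LQ := (Finset.sum_nonneg fun k _ => norm_nonneg _).trans hLQ
    positivity

/-- an irreducible polynomial of positive degree divides `Q` if the resultant is zero -/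
theorem dvd_of_res {R Q : ℤ[X]} (hR : Irreducible R) (hnd : R.natDegree ≠ 0)
    (h0 : resultant R Q = 0) : R ∣ Q := by
  have hprim : R.IsPrimitive := hR.isPrimitive hnd
  have hirr : Irreducible (R.map (algebraMap ℤ ℚ)) :=
    (IsPrimitive.irreducible_iff_irreducible_map_fraction_map hprim).mp hR
  have hinjQ : Function.Injective (algebraMap ℤ ℚ) := IsFractionRing.injective ℤ ℚ
  have h3 : resultant (R.map (algebraMap ℤ ℚ)) (Q.map (algebraMap ℤ ℚ)) = 0 := by
    rw [natDegree_map_eq_of_injective hinjQ, natDegree_map_eq_of_injective hinjQ,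
      resultant_map_map, h0]
    simp
  have h4 := (resultant_eq_zero_iff.mp h3).2
  rw [hirr.coprime_iff_not_dvd] at h4
  exact hprim.dvd_of_fraction_map_dvd_fraction_map (K := ℚ) (not_not.mp h4)

/-- the sum of the coefficients -/
theorem len_le (P : ℤ[X]) (p : ℝ) (hp1 : 1 ≤ p) (hdeg : (P.natDegree : ℝ) ≤ p)
    (hc : ∀ i, |(P.coeff i : ℝ)| ≤ Real.exp p) :
    1 + ∑ k ∈ Finset.range (P.natDegree + 1), ‖(P.map (Int.castRingHom ℂ)).coeff k‖ ≤
      Real.exp (3 * p) := by
  have h1 : ∑ k ∈ Finset.range (P.natDegree + 1), ‖(P.map (Int.castRingHom ℂ)).coeff k‖ ≤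
      (p + 1) * Real.exp p := by
    calc ∑ k ∈ Finset.range (P.natDegree + 1), ‖(P.map (Int.castRingHom ℂ)).coeff k‖
        ≤ ∑ _k ∈ Finset.range (P.natDegree + 1), Real.exp p := by
          refine Finset.sum_le_sum fun k _ => ?_
          rw [coeff_map, eq_intCast, Complex.norm_intCast]
          exact hc k
      _ = ((P.natDegree : ℝ) + 1) * Real.exp p := by
          rw [Finset.sum_const, Finset.card_range, nsmul_eq_mul]; push_cast; ring
      _ ≤ (p + 1) * Real.exp p := by gcongr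
  have h2 : (1 : ℝ) ≤ Real.exp p := Real.one_le_exp (by linarith)
  have h3 : p + 2 ≤ Real.exp (p + 1) := by
    have := Real.add_one_le_exp (p + 1)
    linarith
  calc 1 + ∑ k ∈ Finset.range (P.natDegree + 1), ‖(P.map (Int.castRingHom ℂ)).coeff k‖
      ≤ Real.exp p + (p + 1) * Real.exp p := add_le_add h2 h1
    _ = (p + 2) * Real.exp p := by ring
    _ ≤ Real.exp (p + 1) * Real.exp p := by gcongr
    _ = Real.exp (2 * p + 1) := by rw [← Real.exp_add]; congr 1; ring
    _ ≤ Real.exp (3 * p) := Real.exp_le_exp.2 (by linarith)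

theorem pf_GRS : T_GRS := by
  intro θ
  set T : ℝ := max 1 ‖θ‖ with hT
  have hT1 : 1 ≤ T := le_max_left _ _
  have hTθ : ‖θ‖ ≤ T := le_max_right _ _
  have hlT : 0 ≤ Real.log T := Real.log_nonneg hT1
  refine ⟨6 + 2 * Real.log T, by linarith, ?_⟩
  intro P Q p q ε hPi hQi hna hdP hdQ hPp hQq hcP hcQ hPε hQε
  have hp1 : 1 ≤ p := le_trans (by exact_mod_cast hdP) hPp
  have hq1 : 1 ≤ q := le_trans (by exact_mod_cast hdQ) hQq
  have hinj : Function.Injective (Int.castRingHom ℂ) := Int.cast_injective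
  have hε0 : 0 ≤ ε := (norm_nonneg _).trans hPε
  -- the resultant
  have hres : resultant P Q ≠ 0 := by
    intro h0
    exact hna (hPi.associated_of_dvd hQi (dvd_of_res hPi (by omega) h0))
  have hres1 : (1 : ℝ) ≤ ‖((resultant P Q : ℤ) : ℂ)‖ := by
    rw [Complex.norm_intCast]
    have h1 : (1 : ℤ) ≤ |resultant P Q| := Int.one_le_abs hres
    exact_mod_cast h1
  have hmap : ((resultant P Q : ℤ) : ℂ) = (sylvester (P.map (Int.castRingHom ℂ))
      (Q.map (Int.castRingHom ℂ)) P.natDegree Q.natDegree).det := by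
    have h1 := resultant_map_map P Q P.natDegree Q.natDegree (Int.castRingHom ℂ)
    unfold resultant at h1 ⊢
    rw [h1]
    rfl
  have hevP : (P.map (Int.castRingHom ℂ)).eval θ = aeval θ P := by
    rw [eval_map, aeval_def]; rfl
  have hevQ : (Q.map (Int.castRingHom ℂ)).eval θ = aeval θ Q := by
    rw [eval_map, aeval_def]; rfl
  have hb := syl_bound (P.map (Int.castRingHom ℂ)) (Q.map (Int.castRingHom ℂ)) P.natDegree
    Q.natDegree θ T ε _ _ (natDegree_map_le) (natDegree_map_le) (by omega) hT1 hTθ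
    (by rw [hevP]; exact hPε) (by rw [hevQ]; exact hQε) le_rfl le_rfl
  rw [← hmap] at hb
  have lP := len_le P p hp1 hPp hcP
  have lQ := len_le Q q hq1 hQq hcQ
  set A : ℝ := 1 + ∑ k ∈ Finset.range (P.natDegree + 1),
    ‖(P.map (Int.castRingHom ℂ)).coeff k‖ with hA
  set B : ℝ := 1 + ∑ k ∈ Finset.range (Q.natDegree + 1),
    ‖(Q.map (Int.castRingHom ℂ)).coeff k‖ with hB
  have hA0 : 0 ≤ A := by
    have : 0 ≤ ∑ k ∈ Finset.range (P.natDegree + 1),
      ‖(P.map (Int.castRingHom ℂ)).coeff k‖ := Finset.sum_nonneg fun k _ => norm_nonneg _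
    linarith
  have hB0 : 0 ≤ B := by
    have : 0 ≤ ∑ k ∈ Finset.range (Q.natDegree + 1),
      ‖(Q.map (Int.castRingHom ℂ)).coeff k‖ := Finset.sum_nonneg fun k _ => norm_nonneg _
    linarith
  have e1 : B ^ P.natDegree ≤ Real.exp (3 * (p * q)) := by
    calc B ^ P.natDegree ≤ Real.exp (3 * q) ^ P.natDegree := pow_le_pow_left₀ hB0 lQ _
      _ = Real.exp (P.natDegree * (3 * q)) := by rw [← Real.exp_nat_mul]
      _ ≤ Real.exp (3 * (p * q)) := by
          apply Real.exp_le_exp.2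
          nlinarith
  have e2 : A ^ Q.natDegree ≤ Real.exp (3 * (p * q)) := by
    calc A ^ Q.natDegree ≤ Real.exp (3 * p) ^ Q.natDegree := pow_le_pow_left₀ hA0 lP _
      _ = Real.exp (Q.natDegree * (3 * p)) := by rw [← Real.exp_nat_mul]
      _ ≤ Real.exp (3 * (p * q)) := by
          apply Real.exp_le_exp.2
          nlinarith
  have e3 : T ^ (P.natDegree + Q.natDegree) ≤ Real.exp (2 * Real.log T * (p * q)) := by
    have h1 : T ^ (P.natDegree + Q.natDegree) =
        Real.exp (((P.natDegree + Q.natDegree : ℕ) : ℝ) * Real.log T) := by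
      rw [Real.exp_nat_mul, Real.exp_log (by linarith)]
    rw [h1]
    apply Real.exp_le_exp.2
    have h2 : ((P.natDegree + Q.natDegree : ℕ) : ℝ) ≤ 2 * (p * q) := by
      push_cast
      nlinarith
    calc ((P.natDegree + Q.natDegree : ℕ) : ℝ) * Real.log T ≤ 2 * (p * q) * Real.log T :=
          mul_le_mul_of_nonneg_right h2 hlT
      _ = 2 * Real.log T * (p * q) := by ring
  calc (1 : ℝ) ≤ ‖((resultant P Q : ℤ) : ℂ)‖ := hres1
    _ ≤ T ^ (P.natDegree + Q.natDegree) * ε * (B ^ P.natDegree * A ^ Q.natDegree) := hb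
    _ ≤ Real.exp (2 * Real.log T * (p * q)) * ε *
        (Real.exp (3 * (p * q)) * Real.exp (3 * (p * q))) := by
        gcongr
    _ = ε * Real.exp ((6 + 2 * Real.log T) * (p * q)) := by
        have : (6 + 2 * Real.log T) * (p * q) = 2 * Real.log T * (p * q) + (3 * (p * q) +
          3 * (p * q)) := by ring
        rw [this, Real.exp_add, Real.exp_add]
        ring

end Pool.Agent.H36.TD1
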